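import Pool.Agent.Helper36.EV.Base
import Pool.Agent.Helper69.RF.C1
import Pool.Agent.Helper5.RF.C2
import Pool.Agent.Helper56.RF.C3
import Pool.Agent.Helper42.RF.C4
import Pool.Agent.Helper73.RF.FR

/-!
# Project RF, existence part: the algebra of smooth functions on the sphere and its Sobolev forms

`XS`: smooth functions on `S³` (`0`-homogeneous functions on the quaternions) as a real algebra, `Ed i` the
derivation `E i`, `Wd w` the iterated derivative along a word (`Wd [i, j] = Ed i ∘ Ed j`), `ip u v = ∫ u v`,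
`bf m u v = ∑_{|w| ≤ m} ∫ (Wd w u) (Wd w v)`, `sn m u = bf m u u`.
-/

namespace Pool.Agent.Helper36.RS

open Set Filter Topology MeasureTheory Pool.Agent.Helper47.RF
open scoped ContDiff

theorem c1 : Goal_C1 := Pool.Agent.Helper47.RF.goal_C1
theorem c2 : Goal_C2 := Pool.Agent.Helper5.RF.goal_C2
theorem c3 : Goal_C3 := Pool.Agent.Helper56.RF.goal_C3 c1 c2
theorem c4 : Goal_C4 := Pool.Agent.Helper42.RF.goal_C4 c1 c2

/-- smooth functions on `S³` -/
def XS : Subalgebra ℝ (HH → ℝ) where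
  carrier := {f | Sm f}
  mul_mem' := fun {f h} hf hh => c1.2.2.2.1 f h hf hh
  add_mem' := fun {f h} hf hh => c1.2.1 f h hf hh
  algebraMap_mem' := fun c => c1.1 c

theorem mem_XS {f : HH → ℝ} : f ∈ XS ↔ Sm f := Iff.rfl

/-- the derivation `E i` -/
noncomputable def Ed (i : Fin 3) : Derivation ℝ XS XS :=
  Derivation.mk'
    { toFun := fun f => ⟨E i f.1, c1.2.2.2.2.2.2.2.1 f.1 i f.2⟩
      map_add' := fun f h => Subtype.ext (funext fun x => c2.2.1 i f.1 h.1 x f.2 h.2)
      map_smul' := fun c f => Subtype.ext (funext fun x => c2.2.2.2.2.2.1 i c f.1 x f.2) }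
    (fun f h => Subtype.ext (funext fun x => by
      have h1 := c2.2.2.2.2.1 i f.1 h.1 x f.2 h.2
      change E i (fun y => f.1 y * h.1 y) x = f.1 x * E i h.1 x + h.1 x * E i f.1 x
      rw [h1]
      ring))

theorem Ed_apply (i : Fin 3) (f : XS) (x : HH) : (Ed i f).1 x = E i f.1 x := rfl

theorem Ed_val (i : Fin 3) (f : XS) : (Ed i f).1 = E i f.1 := rfl

/-- `[E_i, E_j] = 2 ∑ eps i j k E_k` -/
theorem comm (i j : Fin 3) (f : XS) :
    Ed i (Ed j f) - Ed j (Ed i f) = (2 : ℝ) • ∑ k, eps i j k • Ed k f := by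
  apply Subtype.ext
  funext x
  have h := c3 i j f.1 x f.2
  have h2 : ((2 : ℝ) • ∑ k, eps i j k • Ed k f : XS).1 x = 2 * ∑ k, eps i j k * E k f.1 x := by
    simp [Fin.sum_univ_three, Ed_val]
    ring
  rw [h2, ← h]
  rfl

/-- iterated derivative along a word -/
noncomputable def Wd : List (Fin 3) → XS →ₗ[ℝ] XS
  | [] => LinearMap.id
  | i :: w => (Ed i).toLinearMap ∘ₗ Wd w

@[simp] theorem Wd_nil (f : XS) : Wd [] f = f := rfl

@[simp] theorem Wd_cons (i : Fin 3) (w : List (Fin 3)) (f : XS) :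
    Wd (i :: w) f = Ed i (Wd w f) := rfl

theorem Wd_append (v w : List (Fin 3)) (f : XS) : Wd (v ++ w) f = Wd v (Wd w f) := by
  induction v with
  | nil => rfl
  | cons i v ih => rw [List.cons_append, Wd_cons, Wd_cons, ih]

theorem Wd_val (w : List (Fin 3)) (f : XS) : (Wd w f).1 = Ew w f.1 := by
  induction w with
  | nil => rfl
  | cons i w ih => rw [Wd_cons, Ed_val, ih]; rfl

/-- words of length at most `m` -/
def Wle (m : ℕ) : Finset (List (Fin 3)) :=
  (Finset.range (m + 1)).biUnion fun k =>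
    Finset.univ.image fun v : Fin k → Fin 3 => List.ofFn v

theorem mem_Wle {m : ℕ} {w : List (Fin 3)} : w ∈ Wle m ↔ w.length ≤ m := by
  simp only [Wle, Finset.mem_biUnion, Finset.mem_range, Finset.mem_image, Finset.mem_univ,
    true_and]
  constructor
  · rintro ⟨k, hk, v, rfl⟩
    rw [List.length_ofFn]
    omega
  · intro h
    exact ⟨w.length, by omega, w.get, List.ofFn_get w⟩

theorem integrable_val (u : XS) : IntegrableOn u.1 (Metric.ball (0 : HH) 1) := c4.2.1 u.1 u.2

/-- `∫ u v` -/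
noncomputable def ip : XS →ₗ[ℝ] XS →ₗ[ℝ] ℝ :=
  LinearMap.mk₂ ℝ (fun u v => integ (u * v).1)
    (fun u u' v => by
      rw [add_mul]
      exact (congrArg (4 * ·) (integral_add (integrable_val (u * v)) (integrable_val (u' * v)))).trans
        (mul_add _ _ _))
    (fun c u v => by
      rw [smul_mul_assoc]
      have h : ((c • (u * v) : XS)).1 = fun x => c * (u * v).1 x := rfl
      rw [h, integ, integral_const_mul, smul_eq_mul, integ]
      ring)
    (fun u v v' => by
      rw [mul_add]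
      exact (congrArg (4 * ·) (integral_add (integrable_val (u * v)) (integrable_val (u * v')))).trans
        (mul_add _ _ _))
    (fun c u v => by
      rw [mul_smul_comm]
      have h : ((c • (u * v) : XS)).1 = fun x => c * (u * v).1 x := rfl
      rw [h, integ, integral_const_mul, smul_eq_mul, integ]
      ring)

theorem ip_apply (u v : XS) : ip u v = integ (fun x => u.1 x * v.1 x) := rfl

theorem ip_comm (u v : XS) : ip u v = ip v u := by
  rw [ip_apply, ip_apply]
  congr 1
  funext x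
  ring

theorem ip_nonneg (u : XS) : 0 ≤ ip u u := by
  rw [ip_apply, integ]
  have h : 0 ≤ ∫ x in Metric.ball (0 : HH) 1, u.1 x * u.1 x :=
    integral_nonneg fun x => mul_self_nonneg _
  linarith

/-- integration by parts -/
theorem ibp (i : Fin 3) (u v : XS) : ip (Ed i u) v = - ip u (Ed i v) := by
  rw [ip_apply, ip_apply]
  exact c4.2.2.2.1 i u.1 v.1 u.2 v.2

/-- Sobolev form of order `m` -/
noncomputable def bf (m : ℕ) : XS →ₗ[ℝ] XS →ₗ[ℝ] ℝ :=
  ∑ w ∈ Wle m, ip.compl₁₂ (Wd w) (Wd w)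

theorem bf_apply (m : ℕ) (u v : XS) : bf m u v = ∑ w ∈ Wle m, ip (Wd w u) (Wd w v) := by
  simp only [bf, LinearMap.sum_apply]
  rfl

/-- squared Sobolev norm of order `m` -/
noncomputable def sn (m : ℕ) (u : XS) : ℝ := bf m u u

theorem sn_eq (m : ℕ) (u : XS) : sn m u = ∑ w ∈ Wle m, ip (Wd w u) (Wd w u) := bf_apply m u u

theorem sn_zero (u : XS) : sn 0 u = ip u u := by
  rw [sn_eq]
  have h : Wle 0 = {[]} := by
    ext w
    rw [mem_Wle, Finset.mem_singleton]
    exact ⟨fun h => List.length_eq_zero_iff.1 (by omega), fun h => by simp [h]⟩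
  rw [h, Finset.sum_singleton]
  rfl

theorem bf_comm (m : ℕ) (u v : XS) : bf m u v = bf m v u := by
  rw [bf_apply, bf_apply]
  exact Finset.sum_congr rfl fun w _ => ip_comm _ _

theorem sn_nonneg (m : ℕ) (u : XS) : 0 ≤ sn m u := by
  rw [sn_eq]
  exact Finset.sum_nonneg fun w _ => ip_nonneg _

theorem sn_mono {m k : ℕ} (h : m ≤ k) (u : XS) : sn m u ≤ sn k u := by
  rw [sn_eq, sn_eq]
  refine Finset.sum_le_sum_of_subset_of_nonneg (fun w hw => ?_) fun w _ _ => ip_nonneg _
  rw [mem_Wle] at hw ⊢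
  omega

theorem ip_Wd_le {m : ℕ} {w : List (Fin 3)} (hw : w.length ≤ m) (u : XS) :
    ip (Wd w u) (Wd w u) ≤ sn m u := by
  rw [sn_eq]
  exact Finset.single_le_sum (f := fun w => ip (Wd w u) (Wd w u)) (fun w _ => ip_nonneg _)
    (mem_Wle.2 hw)

/-- Cauchy-Schwarz for a positive semidefinite symmetric form -/
theorem cs (m : ℕ) (u v : XS) : bf m u v ^ 2 ≤ sn m u * sn m v := by
  have h : ∀ t : ℝ, 0 ≤ sn m v * (t * t) + 2 * bf m u v * t + sn m u := by
    intro t
    have h1 := sn_nonneg m (u + t • v)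
    have h2 : sn m (u + t • v) = sn m u + 2 * t * bf m u v + t ^ 2 * sn m v := by
      simp only [sn, map_add, LinearMap.add_apply, map_smul, LinearMap.smul_apply, smul_eq_mul]
      rw [bf_comm m v u]
      ring
    rw [h2] at h1
    nlinarith
  have h2 := discrim_le_zero h
  rw [discrim] at h2
  nlinarith

theorem sn_neg (m : ℕ) (u : XS) : sn m (-u) = sn m u := by simp [sn]

theorem sn_smul (m : ℕ) (c : ℝ) (u : XS) : sn m (c • u) = c ^ 2 * sn m u := by
  simp only [sn, map_smul, LinearMap.smul_apply, smul_eq_mul]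
  ring

theorem sn_sub_comm (m : ℕ) (u v : XS) : sn m (u - v) = sn m (v - u) := by
  rw [← neg_sub, sn_neg]

theorem sn_add_le (m : ℕ) (u v : XS) : sn m (u + v) ≤ 2 * (sn m u + sn m v) := by
  have h1 : sn m (u + v) + sn m (u - v) = 2 * (sn m u + sn m v) := by
    simp only [sn, map_add, map_sub, LinearMap.add_apply, LinearMap.sub_apply]
    ring
  linarith [sn_nonneg m (u - v)]

theorem sn_Ed (m : ℕ) (i : Fin 3) (u : XS) : sn m (Ed i u) ≤ sn (m + 1) u := by
  rw [sn_eq, sn_eq]
  have h1 : ∑ w ∈ Wle m, ip (Wd w (Ed i u)) (Wd w (Ed i u)) =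
      ∑ w ∈ (Wle m).image (fun w => w ++ [i]), ip (Wd w u) (Wd w u) := by
    rw [Finset.sum_image]
    · refine Finset.sum_congr rfl fun w _ => ?_
      rw [Wd_append]
      rfl
    · intro a _ b _ hab
      exact List.append_cancel_right hab
  rw [h1]
  refine Finset.sum_le_sum_of_subset_of_nonneg (fun w hw => ?_) fun w _ _ => ip_nonneg _
  rw [Finset.mem_image] at hw
  obtain ⟨v, hv, rfl⟩ := hw
  rw [mem_Wle] at hv ⊢
  simp only [List.length_append, List.length_cons, List.length_nil]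
  omega

/-- The Laplacian of the round metric. -/
noncomputable def Lp0 (u : XS) : XS := ∑ i, Ed i (Ed i u)

/-- square integrable functions on the unit ball -/
abbrev LL : Type := Lp ℝ 2 (volume.restrict (Metric.ball (0 : HH) 1))

theorem memLp_val (u : XS) : MemLp u.1 2 (volume.restrict (Metric.ball (0 : HH) 1)) := by
  rw [memLp_two_iff_integrable_sq (integrable_val u).aestronglyMeasurable]
  have h := integrable_val (u * u)
  refine h.congr (ae_of_all _ fun x => ?_)
  change u.1 x * u.1 x = u.1 x ^ 2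
  ring

/-- the map from smooth functions to square integrable functions -/
noncomputable def io : XS →ₗ[ℝ] LL where
  toFun u := (memLp_val u).toLp u.1
  map_add' _ _ := rfl
  map_smul' _ _ := rfl

/-- A curve `y t`, `t ∈ [0, τ]`, of smooth functions with derivative `y'` in all the Sobolev norms. -/
structure CD (τ : ℝ) (y y' : ℝ → XS) : Prop where
  bdd : ∀ m, ∃ L, ∀ t ∈ Icc 0 τ, sn m (y t) ≤ L
  cont' : ∀ m, ∀ t ∈ Icc 0 τ, ∀ δ > 0, ∃ η > 0, ∀ s ∈ Icc 0 τ, |s - t| ≤ η →
    sn m (y' s - y' t) ≤ δ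
  der : ∀ m, ∀ t ∈ Icc 0 τ, ∀ δ > 0, ∃ η > 0, ∀ s ∈ Icc 0 τ, |s - t| ≤ η →
    sn m (y s - y t - (s - t) • y' t) ≤ δ * (s - t) ^ 2

end Pool.Agent.Helper36.RS
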