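import Pool.Agent.Helper36.RS.Base

/-!
# Project RF, existence part: analysis on the sphere, statements of the parts

Read `RS/Base.lean`. `|u|_m = (sn m u)^{1/2}` is the Sobolev norm of order `m` (all words of length `≤ m`).
The value of a function at the quaternion `0` is irrelevant everywhere (`ip` does not see it). Sobolev: the sup of
`|u|` is at most `C |u|_4` (G_SOB).
-/

namespace Pool.Agent.Helper36.RS

open Set Filter Topology MeasureTheory Pool.Agent.Helper47.RF Pool.Agent.Helper36.EV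
open scoped ContDiff

/-- POL: polynomials. PROOF. `X j x = (coordinate j of x) / ‖x‖`, `j = 0, …, 3` (`X j 0 = 0`), `X j ∈ XS`; `V n` is the
span of the monomials in the `X j` of degree at most `n` (with `1`). `Ed i (X j) = ± X k` for some `k` (coordinates
of `x * qe i`; `‖x * exp(s e_i)‖ = ‖x‖`), so `Ed i` maps `V n` to itself (Leibniz). On constants `Lp0 = 0`. For `x ≠ 0`:
`∑ X_j² = 1`, `Lp0 (X j) = -3 X j`, `∑_i (Ed i X_j)(Ed i X_k) = δ_jk - X_j X_k`, and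
`Lp0 (u v) = u Lp0 v + v Lp0 u + 2 ∑ (Ed i u)(Ed i v)`. By induction on the degree `d` of a monomial `w`:
`Lp0 w = - d (d + 2) w + (element of V (d-1))` for `x ≠ 0`: for `w' = X_j w`,
`Lp0 w' = X_j Lp0 w - 3 X_j w + 2 ∑_i (Ed i X_j)(Ed i w)`, and for `w = ∏ X_{k_l}` the last sum is
`∑_l (δ_{j k_l} - X_j X_{k_l}) ∏_{l' ≠ l} X_{k_l'} = - d X_j w +` lower degree; `d (d+2) + 3 + 2 d = (d+1)(d+3)`. Density:
Stone-Weierstrass on the unit sphere (the `X j` separate points; `u` is determined by its values there). -/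
def G_POL : Prop := ∃ V : ℕ → Submodule ℝ XS, (∀ n, FiniteDimensional ℝ (V n)) ∧
  (∀ n, V n ≤ V (n + 1)) ∧ (∀ v ∈ V 0, Lp0 v = 0) ∧ (∀ n i, ∀ v ∈ V n, Ed i v ∈ V n) ∧
  (∀ n, ∀ v ∈ V (n + 1), ∃ v' ∈ V n, ∀ x ≠ 0,
    (Lp0 v).1 x + (((n : ℝ) + 1) * ((n : ℝ) + 3)) * v.1 x = v'.1 x) ∧
  (∀ (u : XS) (δ : ℝ), 0 < δ → ∃ n, ∃ v ∈ V n, ∀ x ≠ 0, |u.1 x - v.1 x| ≤ δ)

/-- PRJ: projections onto polynomials. PROOF. Note `ip u v = 4 ⟪io u, io v⟫`. `W = (V n).map io` is a finite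
dimensional subspace of `LL`; let `io (b k)`, `b k ∈ V n`, be an orthonormal basis of `W`, and
`J n h = ∑ ⟪io (b k), h⟫ b k`; so `io (J n h)` is the orthogonal projection of `h` to `W`. Symmetry, contraction and
the last bound are clear (`sn m (b k) < ∞`). Commutation: `a = Ed i (J n (io u))`, `b = J n (io (Ed i u))` are in
`V n`, and `ip a v = - ip (J n (io u)) (Ed i v) = - ip u (Ed i v) = ip (Ed i u) v = ip b v` for `v ∈ V n`; so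
`ip (a - b) (a - b) = 0` and `a = b` for `x ≠ 0` (continuity, homogeneity). Error: Claim: if `v ∈ V M` and
`ip v z = 0` for all `z ∈ V n`, then `(n+1)(n+3) ip v v ≤ ∑ ip (Ed i v) (Ed i v) = - ip (Lp0 v) v`. Induction on
`M ≥ n` (`M = n`: `ip v v = 0`, and then `ip (Ed i v) (Ed i v) = - ip (Lp0 v) v = 0`): for `v ∈ V (M+1)` write
`v = v1 + v2`, `v1 = J M (io v) ∈ V M`, `v2 ⟂ V M`, `v1 ⟂ V n`. `Lp0 v2 + c v2 = ` element of `V M` (for `x ≠ 0`),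
`c = (M+1)(M+3)`, and it is orthogonal to `V M` (`ip (Lp0 v2) z = ip v2 (Lp0 z) = 0`), so `ip (Lp0 v2) v2 =
- c ip v2 v2`, `ip (Lp0 v2) v1 = ip v2 (Lp0 v1) = 0`; add up. For general `u`: `p_M = J M (io u)`, for `M ≥ n`
`p_M - p_n ⟂ V n` is in `V M`, so `(n+1)^2 ip (p_M - p_n) (p_M - p_n) ≤ ∑ ip (Ed i (p_M - p_n)) (..)` and
`Ed i (p_M - p_n) = J M (io e)`, `e = Ed i u - J n (io (Ed i u))` (a.e.), of norm `≤ |Ed i u|_0`; let
`M → ∞`, `p_M → u` in `L²` by density. -/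
def G_PRJ : Prop := G_POL → ∃ J : ℕ → LL →ₗ[ℝ] XS,
  (∀ n i u, ∀ x ≠ 0, (Ed i (J n (io u))).1 x = (J n (io (Ed i u))).1 x) ∧
  (∀ n u v, ip (J n (io u)) v = ip u (J n (io v))) ∧
  (∀ n u, ip (J n (io u)) (J n (io u)) ≤ ip u u) ∧
  (∀ n u, ip (J n (io u) - u) (J n (io u) - u) ≤
    (1 / ((n : ℝ) + 1)) ^ 2 * ∑ i, ip (Ed i u) (Ed i u)) ∧
  (∀ n m, ∃ C, ∀ h, sn m (J n h) ≤ C * ‖h‖ ^ 2)

/-- SOB: Sobolev inequality. PROOF. By homogeneity take `‖x‖ = 1/2`. For `g ∈ C¹[0,h]`: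
`|g 0| ≤ h⁻¹ ∫_0^h |g| + ∫_0^h |g'|`. Apply this in the four coordinates of `ℍ = ℝ⁴` (`h = 1/8`): `|u x| ≤
C ∑_α ∫_Q |∂^α u|`, `α ∈ {0,1}^4`, `Q = x + [0,h]^4` which is contained in `1/4 ≤ ‖y‖ ≤ 3/4`; Cauchy-Schwarz. And
`∂^α u = ∑_{|w| ≤ |α|} c_w Ew w u` with `c_w` smooth on `{0}ᶜ` (hence bounded on `1/4 ≤ ‖y‖ ≤ 3/4`), because
`∂_p u (y) = fderiv u y e_p` and `e_p = y (y⁻¹ e_p)` is a combination of `y` (Euler: no contribution) and of the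
`y * qe i` with coefficients smooth in `y`. (Any other proof is welcome, e.g. iterating
`|u x| ≤ ∫_0^1 (|u| + |E_i u|)(x exp(s e_i)) ds`.) -/
def G_SOB : Prop := ∃ C, ∀ (u : XS) (x : HH), x ≠ 0 → u.1 x ^ 2 ≤ C * sn 4 u

/-- CMS: completeness and interpolation, assuming SOB. PROOF. (1) By SOB for `Wd w (x n - x k)` the functions
`Ew w (x n)` converge uniformly on `{0}ᶜ`, to `F w`, continuous and `0`-homogeneous. `Goal_C11` (proved:
`Pool.Agent.Helper47.RF.goal_C11`, module `Pool.Agent.Helper38.RF.C11`) gives `Sm (F [])` and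
`Ew w (F []) = F w` for `x ≠ 0`; the hypothesis (derivative along `x exp(s e_i)`) holds for the limit by uniform
convergence of the derivatives (`hasDerivAt_of_tendstoUniformly..`, `Goal_C7` for the `x n`). Uniform convergence on
the ball (finite measure) gives convergence of `ip`. (2) for a word `w`, `|w| = k ≤ m`, integrate by parts:
`ip (Wd w u) (Wd w u) = ± ip u (Wd (w.reverse ++ w) u) ≤ (sn 0 u)^{1/2} (sn (2 k) u)^{1/2}`. -/
def G_CMS : Prop := G_SOB →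
  (∀ x : ℕ → XS,
    (∀ m, ∀ δ > 0, ∃ n0, ∀ n ≥ n0, ∀ k ≥ n0, sn m (x n - x k) ≤ δ) →
    ∃ y, ∀ m, Tendsto (fun n => sn m (x n - y)) atTop (𝓝 0)) ∧
  ∀ m, ∃ C, ∀ u, (sn m u) ^ 2 ≤ C * sn 0 u * sn (2 * m) u

/-- SCY: the graded spaces `ι → XS` with shifts `κ i` of the order, assuming PRJ, POL, SOB, CMS.
PROOF. `io y = fun i => io (y i)`, `J n h = fun i => J n (h i)`, `ε n = 1 / (n+1)` up to a constant factor:
`B m y z = ∑ i, bf (m + κ i) (y i) (z i)`. With the commutation of PRJ (for `x ≠ 0`, `ip` does not see `x = 0`) all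
statements for `bf m` follow from those for `ip`: `Wd w (J n (io u)) = J n (io (Wd w u))` a.e. by induction on `w`.
`errJ`: `∑_{|w| ≤ m} ∑_i ip (Ed i (Wd w u)) (..) ≤ sn (m+1) u`. `interp`: `(∑_i a_i)² ≤ |ι| ∑ a_i²`, CMS (2) for
`m + κ i`, `m' = 2 m + ∑ κ i`. -/
def G_SCY : Prop := G_PRJ → G_POL → G_SOB → G_CMS →
  ∀ (ι : Type) [Fintype ι] (κ : ι → ℕ), ∃ S : Scale (ι → XS) (ι → LL), ∀ m y z,
    S.B m y z = ∑ i, bf (m + κ i) (y i) (z i)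

/-- PRS: products, commutators, moving a derivative, assuming SOB.
PROOF. Leibniz: `Wd w (u v)` is the sum over the subwords `w'` of `w` (with complementary subword `w''`) of
`Wd w' u * Wd w'' v` (induction). One of the two subwords, say `w'`, has length `≤ k/2` and
`sup |Wd w' u| ≤ C |u|_{k/2 + 4}` (SOB for `Wd w' u`). (a) `k/2 + 4 ≤ k - 2` for `k ≥ 12`; (b)
`sup |Wd w' u| ≤ C |u|_{k+4}` for all `w'`; (h) `k/2 + 4 ≤ k` for `k ≥ 8`. (c) the term `w' = []` is subtracted, so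
`|w''| ≤ k - 1`; if `|w'| ≤ k/2` then `sup |Wd w' a| ≤ C |a|_k`, `|Wd w'' v|_0 ≤ |v|_{k-1}`, otherwise
`|w''| ≤ k/2`, `sup |Wd w'' v| ≤ C |v|_{k/2+4} ≤ C |v|_{k-1}`. (d) induction on `w` with
`Ed j (Ed i z) = Ed i (Ed j z) + 2 ∑ eps Ed k z`: `Wd w (Ed i u) - Ed i (Wd w u)` is a combination with constant
coefficients of `Wd w' u`, `|w'| ≤ |w|`. (f), (g): term by term: for `w = []`, `ip u (Ed i v) = - ip (Ed i u) v`, resp.
`ip u v ≤ |u|_0 |v|_0`; for `w = j :: w'`: `ip (Ed j (Wd w' u)) (Ed j (Wd w' v')) = - ip (Ed j (Ed j (Wd w' u)))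
(Wd w' v')`, first factor a word of length `|w| + 1 ≤ m + 1`, second a word of length `|w'| ≤ m - 1` of `v' = Ed i v`
resp. `v' = v`. -/
def G_PRS : Prop := G_SOB →
  (∀ k ≥ 12, ∃ C, ∀ u v : XS, sn k (u * v) ≤ C * (sn k u * sn (k - 2) v + sn (k - 2) u * sn k v)) ∧
  (∀ k, ∃ C, ∀ u v : XS, sn k (u * v) ≤ C * (sn (k + 4) u * sn k v)) ∧
  (∀ k ≥ 12, ∃ C, ∀ w : List (Fin 3), w.length ≤ k → ∀ a v : XS,
    ip (Wd w (a * v) - a * Wd w v) (Wd w (a * v) - a * Wd w v) ≤ C * (sn k a * sn (k - 1) v)) ∧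
  (∀ k, ∃ C, ∀ w : List (Fin 3), w.length ≤ k → ∀ i (u : XS),
    ip (Wd w (Ed i u) - Ed i (Wd w u)) (Wd w (Ed i u) - Ed i (Wd w u)) ≤ C * sn k u) ∧
  (∀ k ≥ 8, ∃ C, ∀ u v : XS, sn k (u * v) ≤ C * (sn k u * sn k v)) ∧
  (∀ m, ∃ C, ∀ i (u v : XS), (bf m u (Ed i v)) ^ 2 ≤ C * (sn (m + 1) u * sn m v)) ∧
  (∀ m ≥ 1, ∃ C, ∀ u v : XS, (bf m u v) ^ 2 ≤ C * (sn (m + 1) u * sn (m - 1) v))

/-- PRSA: parts (a), (b), (c), (h) of PRS (see the proof there) -/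
def G_PRSA : Prop := G_SOB →
  (∀ k ≥ 12, ∃ C, ∀ u v : XS, sn k (u * v) ≤ C * (sn k u * sn (k - 2) v + sn (k - 2) u * sn k v)) ∧
  (∀ k, ∃ C, ∀ u v : XS, sn k (u * v) ≤ C * (sn (k + 4) u * sn k v)) ∧
  (∀ k ≥ 12, ∃ C, ∀ w : List (Fin 3), w.length ≤ k → ∀ a v : XS,
    ip (Wd w (a * v) - a * Wd w v) (Wd w (a * v) - a * Wd w v) ≤ C * (sn k a * sn (k - 1) v)) ∧
  (∀ k ≥ 8, ∃ C, ∀ u v : XS, sn k (u * v) ≤ C * (sn k u * sn k v))

/-- PRSB: parts (d), (f), (g) of PRS (see the proof there; no Sobolev inequality needed) -/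
def G_PRSB : Prop :=
  (∀ k, ∃ C, ∀ w : List (Fin 3), w.length ≤ k → ∀ i (u : XS),
    ip (Wd w (Ed i u) - Ed i (Wd w u)) (Wd w (Ed i u) - Ed i (Wd w u)) ≤ C * sn k u) ∧
  (∀ m, ∃ C, ∀ i (u v : XS), (bf m u (Ed i v)) ^ 2 ≤ C * (sn (m + 1) u * sn m v)) ∧
  (∀ m ≥ 1, ∃ C, ∀ u v : XS, (bf m u v) ^ 2 ≤ C * (sn (m + 1) u * sn (m - 1) v))

theorem prs_of (ha : G_PRSA) (hb : G_PRSB) : G_PRS := fun h =>
  ⟨(ha h).1, (ha h).2.1, (ha h).2.2.1, hb.1, (ha h).2.2.2, hb.2.1, hb.2.2⟩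

/-- ELL: elliptic energy estimate, assuming PRS (and SOB).
PROOF. Let `f_i = ∑_k a i k * Ed k v`. For a word `w`, `|w| ≤ m`:
`ip (Wd w v) (Wd w (Ed i f_i)) = ip (Wd w v) (Ed i (Wd w f_i)) + ip (Wd w v) (K f_i)`, where
`K f_i = Wd w (Ed i f_i) - Ed i (Wd w f_i)`, `|K f_i|_0 ≤ C |f_i|_m` (d), and
`|f_i|_m ≤ C(L) |v|_{m+1}` by (a) (or (h)). The first term is `- ip (Ed i (Wd w v)) (Wd w f_i)`, and
`Wd w (a Ed k v) = a Ed k (Wd w v) + a (Wd w (Ed k v) - Ed k (Wd w v)) + (Wd w (a Ed k v) - a Wd w (Ed k v))`, where the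
second summand has norm `≤ C(L) |v|_m` ((d), `sup |a| ≤ C |a|_4`) and the third `≤ C |a|_m |Ed k v|_{m-1} ≤
C(L) |v|_m` by (c). So the sum over `i` of these terms is
`≤ - ∫ ∑ a i k Ed i (Wd w v) Ed k (Wd w v) + C(L) |v|_{m+1} |v|_m ≤ - lam ∑_i ip (Ed i (Wd w v)) (Ed i (Wd w v)) + …`
(pointwise ellipticity at `x ≠ 0`). Sum over `w`: `sn (m+1) v ≤ sn m v + ∑_{|w| ≤ m} ∑_i ip (Ed i (Wd w v)) (..)`.
Finally `C(L) |v|_{m+1} |v|_m ≤ (lam/2) |v|_{m+1}² + C' |v|_m²`. -/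
def G_ELL : Prop := G_SOB → G_PRS → ∀ m ≥ 12, ∀ lam > 0, ∀ L, ∃ C, 0 ≤ C ∧
  ∀ (a : Fin 3 → Fin 3 → XS) (v : XS), (∀ i k, sn m (a i k) ≤ L) →
    (∀ x ≠ 0, ∀ ξ : Fin 3 → ℝ, lam * ∑ i, ξ i ^ 2 ≤ ∑ i, ∑ k, (a i k).1 x * ξ i * ξ k) →
    bf m v (∑ i, Ed i (∑ k, a i k * Ed k v)) ≤ - (lam / 2) * sn (m + 1) v + C * sn m v

/-- MVP: polynomial expressions, assuming PRS (and SOB). PROOF. Induction on the polynomial
(`MvPolynomial.induction_on`: constants, sums, `p * X i`). (1) from PRS (a): for `p * X i`,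
`sn k (p(z) z_i) ≤ C (sn k (p z) sn (k-2) (z i) + sn (k-2) (p z) sn k (z i))` and `sn (k-2) (p z) ≤ C(L)` by PRS (h) at
order `k - 2 ≥ 10` (prove first: `sn j (p z) ≤ C(L)` if all `sn j (z i) ≤ L`, `j ≥ 8`). (2)
`p(z) z_i - p(z') z'_i = (z_i - z'_i) p(z) + z'_i (p(z) - p(z'))`, PRS (b) with `u` the first bounded factor
(`sn (k+4) (p z) ≤ sn (k+8) (p z) ≤ C(L)`). (3) (h) at order `k + 8`. -/
def G_MVP : Prop := G_SOB → G_PRS → ∀ (Z : Type) [Fintype Z] (p : MvPolynomial Z ℝ),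
  (∀ k ≥ 12, ∀ L, ∃ C, ∀ z : Z → XS, (∀ i, sn (k - 2) (z i) ≤ L) →
    sn k (MvPolynomial.aeval z p) ≤ C * (1 + ∑ i, sn k (z i))) ∧
  (∀ k L, ∃ C, ∀ z z' : Z → XS, (∀ i, sn (k + 8) (z i) ≤ L) → (∀ i, sn (k + 8) (z' i) ≤ L) →
    sn k (MvPolynomial.aeval z p - MvPolynomial.aeval z' p) ≤ C * ∑ i, sn k (z i - z' i)) ∧
  (∀ k L, ∃ C, ∀ z : Z → XS, (∀ i, sn (k + 8) (z i) ≤ L) → sn k (MvPolynomial.aeval z p) ≤ C)

/-- CV: from convergence in all the Sobolev norms to smooth families, assuming SOB. PROOF. SOB for `Wd w` of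
differences: `|Ew w (y s) x - Ew w (y t) x|² ≤ C sn (|w| + 4) (y s - y t)` etc. Joint continuity at `(t, x)`:
`|Ew w (y s) z - Ew w (y t) x| ≤ sup |Ew w (y s - y t)| + |Ew w (y t) z - Ew w (y t) x|`; `y` is continuous in all norms
by `der` and `bdd`-type bound of `y' t`. -/
def G_CV : Prop := G_SOB → ∀ (τ : ℝ) (y y' : ℝ → XS), CD τ y y' →
  SmFam1 (Icc 0 τ) (fun t => (y t).1) (fun t => (y' t).1)

/-- data of a mixed system: `∂_t u_i = G_i(u, v)`,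
`∂_t v_j = ∑_i E_i (∑_k α_ik(u) E_k v_j + β_ij(u, Eu, v)) + W_j(u, Eu, v, Ev)` -/
structure QLD (I J : Type) where
  G : I → MvPolynomial (I ⊕ J) ℝ
  α : Fin 3 → Fin 3 → MvPolynomial I ℝ
  β : Fin 3 → J → MvPolynomial (I ⊕ ((Fin 3 × I) ⊕ J)) ℝ
  W : J → MvPolynomial ((I ⊕ ((Fin 3 × I) ⊕ J)) ⊕ (Fin 3 × J)) ℝ

variable {I J : Type}

/-- the jet `(u, Eu, v)` -/
noncomputable def zj (u : I → XS) (v : J → XS) : I ⊕ ((Fin 3 × I) ⊕ J) → XS :=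
  Sum.elim u (Sum.elim (fun p => Ed p.1 (u p.2)) v)

/-- the jet `(u, Eu, v, Ev)` -/
noncomputable def zj' (u : I → XS) (v : J → XS) :
    (I ⊕ ((Fin 3 × I) ⊕ J)) ⊕ (Fin 3 × J) → XS :=
  Sum.elim (zj u v) (fun p => Ed p.1 (v p.2))

/-- right side for `u` -/
noncomputable def QLD.FI (D : QLD I J) (u : I → XS) (v : J → XS) (i : I) : XS :=
  MvPolynomial.aeval (Sum.elim u v) (D.G i)

/-- right side for `v` -/
noncomputable def QLD.FJ (D : QLD I J) (u : I → XS) (v : J → XS) (j : J) : XS :=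
  ∑ i, Ed i ((∑ k, MvPolynomial.aeval u (D.α i k) * Ed k (v j)) +
    MvPolynomial.aeval (zj u v) (D.β i j)) + MvPolynomial.aeval (zj' u v) (D.W j)

/-- right side -/
noncomputable def QLD.FF (D : QLD I J) (y : I ⊕ J → XS) : I ⊕ J → XS :=
  Sum.elim (D.FI (fun i => y (Sum.inl i)) fun j => y (Sum.inr j))
    (D.FJ (fun i => y (Sum.inl i)) fun j => y (Sum.inr j))

/-- shift of the order: `u` is measured with one derivative more -/
def kap : I ⊕ J → ℕ := Sum.elim (fun _ => 1) fun _ => 0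

/-- squared norm of order `m` -/
noncomputable def qq [Fintype I] [Fintype J] (m : ℕ) (y : I ⊕ J → XS) : ℝ :=
  ∑ i, sn (m + kap i) (y i)

/-- form of order `m` -/
noncomputable def bb [Fintype I] [Fintype J] (m : ℕ) (y z : I ⊕ J → XS) : ℝ :=
  ∑ i, bf (m + kap i) (y i) (z i)

/-- ellipticity of `α(u)` for `u` uniformly close to `u0` -/
def QLD.Ell (D : QLD I J) (u0 : I → XS) (lam ρ : ℝ) : Prop :=
  ∀ u : I → XS, (∀ i, ∀ x ≠ 0, |(u i).1 x - (u0 i).1 x| ≤ ρ) → ∀ x ≠ 0, ∀ ξ : Fin 3 → ℝ,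
    lam * ∑ i, ξ i ^ 2 ≤
      ∑ i, ∑ k, (MvPolynomial.aeval u (D.α i k) : XS).1 x * ξ i * ξ k

/-- QF3: energy estimate of the mixed system, assuming PRS, ELL, MVP (and SOB).
PROOF. Let `qq (m-1) y ≤ L`, `m ≥ 13`: so `|u|_m, |v|_{m-1} ≤ √L`. (i) `u`-part: `bf (m+1) (u i) (G_i) ≤
|u_i|_{m+1} |G_i(u,v)|_{m+1}`, MVP (1) with `k = m + 1` (`k - 2 = m - 1`, bounded):
`|G_i|_{m+1}² ≤ C(L) (1 + ∑ |u|²_{m+1} + ∑ |v|²_{m+1})`. (ii) main part of `v_j`: `a i k = α_ik(u)`, `sn m (a i k) ≤ C(L)`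
by MVP (1) with `k = m` (all `|u|_m` bounded), ELL: `≤ -(lam/2) |v_j|²_{m+1} + C |v_j|²_m`. (iii) `β`: PRS (f):
`bf m (v j) (Ed i β) ≤ C |v_j|_{m+1} |β|_m`, MVP (1) with `k = m` for the jet `(u, Eu, v)`:
`|β|_m² ≤ C(L) (1 + |u|²_{m+1} + |v|²_m)` (orders `m - 2` of the jet are bounded). (iv) `W`: PRS (g):
`bf m (v j) W ≤ C |v_j|_{m+1} |W|_{m-1}`, MVP (1) with `k = m - 1 ≥ 12` for the jet `(u, Eu, v, Ev)`, whose orders
`m - 3` are bounded: `|W|²_{m-1} ≤ C(L) (1 + |u|²_m + |v|²_m)`. Sum up, and absorb `|v|_{m+1}` by Cauchy's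
inequality in `-(lam/2) ∑ |v_j|²_{m+1}`. -/
def G_QF3 : Prop := G_SOB → G_PRS → G_ELL → G_MVP →
  ∀ (I J : Type) [Fintype I] [Fintype J] (D : QLD I J) (u0 : I → XS) (lam ρ : ℝ), 0 < lam →
    D.Ell u0 lam ρ → ∀ m ≥ 13, ∀ L, ∃ C, 0 ≤ C ∧ ∀ y : I ⊕ J → XS,
      (∀ i, ∀ x ≠ 0, |(y (Sum.inl i)).1 x - (u0 i).1 x| ≤ ρ) → qq (m - 1) y ≤ L →
      bb m y (D.FF y) ≤ C * (1 + qq m y)

/-- QF4: difference estimate, assuming PRS, MVP, SOB. PROOF. `δ = y - y'`, `qq 12 y, qq 12 y' ≤ L` (all the sup norms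
and low orders that occur are bounded). `u`-part: order `1`: MVP (2), `k = 1`:
`bf 1 δu (δG) ≤ C |δu|_1 (|δu|_1 + |δv|_1)`. `v`-part, order `0`: `ip (δv_j) (Ed i (δV_i)) = - ip (Ed i δv_j) (δV_i)`,
`δV_i = ∑_k α_ik(u) Ed k (δv_j) + ∑_k (α_ik(u) - α_ik(u')) Ed k v'_j + δβ`; the first sum gives
`≤ - lam ∑ |Ed i δv_j|_0²`, the others have `L²` norm `≤ C (|δu|_1 + |δv|_0)` (MVP (2), `k = 0`, and
`sup |Ed k v'| ≤ C(L)`); `|δW|_0 ≤ C (|δu|_1 + |δv|_0 + ∑ |Ed i δv|_0)` (MVP (2), `k = 0`). Absorb. -/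
def G_QF4 : Prop := G_SOB → G_PRS → G_MVP →
  ∀ (I J : Type) [Fintype I] [Fintype J] (D : QLD I J) (u0 : I → XS) (lam ρ : ℝ), 0 < lam →
    D.Ell u0 lam ρ → ∀ L, ∃ C, ∀ y y' : I ⊕ J → XS,
      (∀ i, ∀ x ≠ 0, |(y (Sum.inl i)).1 x - (u0 i).1 x| ≤ ρ) →
      (∀ i, ∀ x ≠ 0, |(y' (Sum.inl i)).1 x - (u0 i).1 x| ≤ ρ) → qq 12 y ≤ L → qq 12 y' ≤ L →
      bb 0 (y - y') (D.FF y - D.FF y') ≤ C * qq 0 (y - y')

/-- QF1: Lipschitz estimate with loss of derivatives, assuming PRS, MVP, SOB. PROOF. MVP (2): `u`-components with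
`k = m + 1`; `v`-components: `sn m (Ed i f) ≤ sn (m+1) f`, and `f = α(u) Ed k v + β` is a polynomial in the jet
`(u, Eu, v, Ev)`, `k = m + 1` (bounds of order `m + 9` of the jet); `sn (m+1) (Ed k v) ≤ sn (m+2) v`. -/
def G_QF1 : Prop := G_SOB → G_PRS → G_MVP →
  ∀ (I J : Type) [Fintype I] [Fintype J] (D : QLD I J), ∀ m L, ∃ C, ∀ y y' : I ⊕ J → XS,
    qq (m + 10) y ≤ L → qq (m + 10) y' ≤ L →
    qq m (D.FF y - D.FF y') ≤ C * qq (m + 2) (y - y')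

/-- local existence for mixed systems -/
def G_QL : Prop := ∀ (I J : Type) [Fintype I] [Fintype J] (D : QLD I J) (u0 : I → XS) (v0 : J → XS)
  (lam ρ : ℝ), 0 < lam → 0 < ρ → D.Ell u0 lam ρ →
  ∃ τ > 0, ∃ (u : ℝ → I → XS) (v : ℝ → J → XS), u 0 = u0 ∧ v 0 = v0 ∧
    (∀ i, CD τ (fun t => u t i) (fun t => D.FI (u t) (v t) i)) ∧
    (∀ j, CD τ (fun t => v t j) (fun t => D.FJ (u t) (v t) j))

/-- QAS: assembly of the local existence theorem from the abstract theorem `EV.G_MAIN'`.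
PROOF. `S` from SCY with `κ = kap`; `Evo S`: `F t = D.FF`, start `y0 = (u0, v0)`, `s = 13`, `m0 = 4`, `m4 = 12`,
`R = 2 (1 + q 13 y0)`, `r` so small that `q 4 (y - y0) ≤ r` implies `|u_i - u0_i| ≤ ρ` (SOB), `C1` from QF3 with
`m = 13`, `L = R` (`q 12 ≤ q 13`), `C2` from QF1 (`m = 4`: bounds of order `14`?? instead use MVP directly: if
`q 13 y ≤ R` then `q 4 (FF y) ≤ C2`, because `FF` of order `4` needs only orders `≤ 4 + 2` of `y` in `L²` and sup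
norms of orders `≤ 6`, all bounded by `q 13`: MVP (3) with `k = 5`, jets of order `13` are not needed for
`k + 8 = 13` of `(u, Eu)` (order `m + kap`), and for `Ev` use `k = 4`, `k + 8 = 12`; the term `Ed i (α Ed k v)` is
`≤ sn 5 (α Ed k v)`, PRS (b): `≤ C sn 9 α sn 5 (Ed k v)`), `τ` small for `small`, `small'`, `T = τ`. `F3` from QF3,
`F4` from QF4, `F0`, `F1`, `F2` from QF1 (with `y' = 0` for `F1`, `FF 0` is a constant vector). `F0`: in `S.Lim` both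
sequences are bounded. The solution of `EV.G_MAIN'` satisfies `CD` (`bdd`, `der` from `IsSol`, `cont'` from
continuity of `y` in all norms and QF1). -/
def G_QAS : Prop := Pool.Agent.Helper36.EV.G_MAIN' → G_SOB → G_PRS → G_MVP →
  (∀ (ι : Type) [Fintype ι] (κ : ι → ℕ), ∃ S : Scale (ι → XS) (ι → LL), ∀ m y z,
    S.B m y z = ∑ i, bf (m + κ i) (y i) (z i)) →
  (∀ (I J : Type) [Fintype I] [Fintype J] (D : QLD I J) (u0 : I → XS) (lam ρ : ℝ), 0 < lam →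
    D.Ell u0 lam ρ → ∀ m ≥ 13, ∀ L, ∃ C, 0 ≤ C ∧ ∀ y : I ⊕ J → XS,
      (∀ i, ∀ x ≠ 0, |(y (Sum.inl i)).1 x - (u0 i).1 x| ≤ ρ) → qq (m - 1) y ≤ L →
      bb m y (D.FF y) ≤ C * (1 + qq m y)) → G_QF4 → G_QF1 → G_QL

/-- linear parabolic equation on the whole time interval -/
def G_LIN : Prop := ∀ (T lam : ℝ) (a : Fin 3 → Fin 3 → ℝ → XS) (b : Fin 3 → ℝ → XS) (f : XS),
  0 < T → 0 < lam → (∀ i k, SmFam (Icc 0 T) (fun t => (a i k t).1)) →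
  (∀ i, SmFam (Icc 0 T) (fun t => (b i t).1)) →
  (∀ t ∈ Icc 0 T, ∀ x ≠ 0, ∀ ξ : Fin 3 → ℝ, lam * ∑ i, ξ i ^ 2 ≤
    ∑ i, ∑ k, (a i k t).1 x * ξ i * ξ k) →
  ∃ u : ℝ → XS, u 0 = f ∧
    CD T u (fun t => ∑ i, ∑ k, a i k t * Ed i (Ed k (u t)) + ∑ i, b i t * Ed i (u t))

/-- LAS: the linear equation from the abstract theorem, assuming PRS, ELL, SOB and the scale.
PROOF. `S` from SCY with `ι = Unit`, `κ = 0`; `F t u = ∑ a i k Ed i (Ed k u) + ∑ b i Ed i u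
= ∑ Ed i (∑ a i k Ed k u) + ∑ (b k - ∑_i Ed i (a i k)) Ed k u`. Bounds of the coefficients: a smooth family on the
compact set `[0, T] × sphere` has bounded word derivatives, so `sn m (a i k t), sn m (b i t) ≤ L_m` for
`t ∈ [0, T]`. Energy, all `m ≥ 12`: ELL for the first sum, PRS (g) and (a) for the rest:
`B m u (F t u) ≤ C_m q m u`. `s = 12`, `m0 = 0`, `m4 = 0`, `C1 = C_12`, `R` with
`exp (2 C1 T) (1 + q 12 f) < 1 + R`, `C2` a bound of `q 0 (F t u)` for `q 12 u ≤ R`, `r = C2 T² + 1`, `τ = T`. `F4`: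
`F` is linear, `ip w (F t w) ≤ - lam |Ew|² + C |w|_0 |Ew|_0 ≤ C' |w|_0²`. `F0`: `sn m (a i k s - a i k t) → 0` as
`s → t` (uniform continuity of the word derivatives on the compact set `[0, T] × sphere`). -/
def G_LAS : Prop := Pool.Agent.Helper36.EV.G_MAIN' → G_SOB → G_PRS →
  (∀ m ≥ 12, ∀ lam > 0, ∀ L, ∃ C, 0 ≤ C ∧
    ∀ (a : Fin 3 → Fin 3 → XS) (v : XS), (∀ i k, sn m (a i k) ≤ L) →
      (∀ x ≠ 0, ∀ ξ : Fin 3 → ℝ, lam * ∑ i, ξ i ^ 2 ≤ ∑ i, ∑ k, (a i k).1 x * ξ i * ξ k) →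
      bf m v (∑ i, Ed i (∑ k, a i k * Ed k v)) ≤ - (lam / 2) * sn (m + 1) v + C * sn m v) →
  (∀ (ι : Type) [Fintype ι] (κ : ι → ℕ), ∃ S : Scale (ι → XS) (ι → LL), ∀ m y z,
    S.B m y z = ∑ i, bf (m + κ i) (y i) (z i)) → G_LIN

/-- JS: joint smoothness in `(t, x)`. `P` is a set of curves of smooth functions, closed under `Ed i` and under the
time derivative. PROOF. Show by induction on `n` that every `f ∈ P` is `C^n` on `(a, b) × {0}ᶜ` as a function of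
`(t, x)`. `n = 0`: hypothesis. Step: the partial derivatives `∂_t f = f'` and `∂_p f = ∑_i c_pi(x) Ed i (f t)`
(`e_p = x (x⁻¹ e_p)`, `c_pi` smooth on `{0}ᶜ`, the radial part vanishes by homogeneity) are continuous on the open
set, so `f` is differentiable there with `fderiv f (t, x) (s, v) = s f' t x + ∑_i c_i(x, v) Ed i (f t) x`,
`c_i(x, v) = ` the `i`-th imaginary component of `x⁻¹ * v` (a function with continuous partial derivatives is `C¹`: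
`hasStrictFDerivAt`..; or: `f (t+s) (x+v) - f t x = [f (t+s) (x+v) - f t (x+v)] + [f t (x+v) - f t x]`, mean value
inequality for the first bracket), and this is `C^n` by induction (`contDiffOn_succ_iff_fderiv_of_isOpen`). -/
def G_JS : Prop := ∀ (a b : ℝ) (P : Set (ℝ → XS)),
  (∀ f ∈ P, ContinuousOn (fun p : ℝ × HH => (f p.1).1 p.2) (Ioo a b ×ˢ {0}ᶜ)) →
  (∀ f ∈ P, ∀ i, (fun t => Ed i (f t)) ∈ P) →
  (∀ f ∈ P, ∃ f' ∈ P, ∀ x ≠ 0, ∀ t ∈ Ioo a b,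
    HasDerivAt (fun s => (f s).1 x) ((f' t).1 x) t) →
  ∀ f ∈ P, ContDiffOn ℝ oo (fun p : ℝ × HH => (f p.1).1 p.2) (Ioo a b ×ˢ {0}ᶜ)

/-- JQ: solutions of mixed systems are smooth in `(t, x)`, assuming JS, SOB, CV. PROOF. `P` = the set of all
curves `t ↦ aeval (fun q => Wd q.2 (y t q.1)) p` with `p` a polynomial in the variables `(I ⊕ J) × List (Fin 3)`
(`y = (u, v)`) (on `(0, τ)`; outside nothing is required). It is closed under `Ed i`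
(`Derivation` of `aeval`: `Ed i (aeval z p) = ∑ aeval z (pderiv q p) * Ed i (z q)`, a finite sum over `p.vars`, or
induction on `p`), and the time derivative of `Wd w (y t q)` is `Wd w` of the right side, which is again such a
polynomial (`FI`, `FJ` are of this form, `Wd w` keeps the form). Time derivatives of polynomials by the chain rule,
pointwise (from `CV`). -/
def G_JQ : Prop := G_JS → G_SOB → G_CV →
  ∀ (I J : Type) [Fintype I] [Fintype J] (D : QLD I J) (τ : ℝ) (u : ℝ → I → XS) (v : ℝ → J → XS),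
    (∀ i, CD τ (fun t => u t i) (fun t => D.FI (u t) (v t) i)) →
    (∀ j, CD τ (fun t => v t j) (fun t => D.FJ (u t) (v t) j)) →
    (∀ i, ContDiffOn ℝ oo (fun p : ℝ × HH => (u p.1 i).1 p.2) (Ioo 0 τ ×ˢ {0}ᶜ)) ∧
    (∀ j, ContDiffOn ℝ oo (fun p : ℝ × HH => (v p.1 j).1 p.2) (Ioo 0 τ ×ˢ {0}ᶜ))

end Pool.Agent.Helper36.RS
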