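import Pool.Agent.Helper36.RS.MainOf
import Pool.Agent.Helper14.RS.QAS
import Pool.Agent.Helper89.RS.JQ

/-!
# Project RF, existence part: local existence for mixed systems
-/

namespace Pool.Agent.Helper36.RS

theorem ql : G_QL := ql_of Helper14.RS.qas

theorem r_jq : RI.R_JQ := jq_of Helper89.RS.jq

end Pool.Agent.Helper36.RS
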