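import Pool.Agent.Helper36.RS.Goals
import Pool.Agent.Helper36.EV.Main
import Pool.Agent.Helper14.RS.QF3
import Pool.Agent.Helper40.RS.SOB
import Pool.Agent.Helper42.RS.PRSA
import Pool.Agent.Helper51.RS.CMS
import Pool.Agent.Helper56.RS.SCY
import Pool.Agent.Helper57.RS.ELL
import Pool.Agent.Helper61.RS.CV
import Pool.Agent.Helper61.RS.QF1
import Pool.Agent.Helper67.RS.POL
import Pool.Agent.Helper69.RS.JS
import Pool.Agent.Helper79.RS.PRJ
import Pool.Agent.Helper8.RS.QF4
import Pool.Agent.Helper83.RS.MVP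
import Pool.Agent.Helper90.RS.PRSB
import Pool.Agent.Helper36.RI.Goals

/-!
# Project RF, existence part: assembly of the analytic parts
-/

namespace Pool.Agent.Helper36.RS

theorem sob : G_SOB := Helper40.RS.sob
theorem prs : G_PRS := prs_of Helper42.RS.prsa Helper90.RS.prsb
theorem ell : G_ELL := Helper57.RS.ell
theorem mvp : G_MVP := Helper83.RS.mvp
theorem qf4 : G_QF4 := Helper8.RS.qf4
theorem qf1 : G_QF1 := Helper61.RS.qf1
theorem js : G_JS := Helper69.RS.js
theorem cv : G_CV := Helper61.RS.cv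

theorem r_cv : RI.R_CV := cv sob

theorem scale (ι : Type) [Fintype ι] (κ : ι → ℕ) : ∃ S : EV.Scale (ι → XS) (ι → LL), ∀ m y z,
    S.B m y z = ∑ i, bf (m + κ i) (y i) (z i) :=
  Helper56.RS.scy Helper79.RS.prj Helper67.RS.pol Helper40.RS.sob Helper51.RS.cms ι κ

theorem ql_of (h : G_QAS) : G_QL :=
  h EV.main' sob prs mvp (fun ι _ κ => scale ι κ)
    (fun I J _ _ D u0 lam ρ => Helper14.RS.qf3 sob prs ell mvp I J D u0 lam ρ) qf4 qf1

theorem lin_of (h : G_LAS) : G_LIN :=
  h EV.main' sob prs (ell sob prs) (fun ι _ κ => scale ι κ)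

theorem jq_of (h : G_JQ) : RI.R_JQ := fun I J _ _ D τ u v => h js sob cv I J D τ u v

end Pool.Agent.Helper36.RS
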